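import Pool.Agent.X164.MP.DlogMain

set_option autoImplicit false

namespace Pool.Agent.Results.MP_926cc3_nt.DiscreteLogarithms

/-- **Early long runs of composite numbers around a number and its discrete logarithm.** Let
`ε > 0`. There are `C` and `G` such that, for all `g ≥ G` and all primes
`p ≥ exp (C g (log₂ g)² / ((log g)² log₃ g))` (the best bound known for the first occurrence of a run
of `g` composite numbers, starting library): for every primitive root `γ` modulo `p` and all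
intervals `(L₁, R₁]`, `(L₂, R₂]` in `[0, p)` the product of whose lengths is at least
`p ^ (3 / 2 + ε)` there are `n` in the first and `x` in the second interval, with
`γ ^ n ≡ x (mod p)`, such that no prime is within `g` of `n` or of `x`. -/
theorem result (ε : ℝ) (hε : 0 < ε) : ∃ C : ℝ, 0 < C ∧ ∃ G : ℕ, ∀ g : ℕ, G ≤ g →
    ∀ (p : ℕ) [Fact p.Prime], Real.exp (C * g * (Real.log (Real.log g)) ^ 2 /
        ((Real.log g) ^ 2 * Real.log (Real.log (Real.log g)))) ≤ p →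
    ∀ γ : ZMod p, orderOf γ = p - 1 → ∀ L₁ R₁ L₂ R₂ : ℕ, L₁ ≤ R₁ → R₁ < p → L₂ ≤ R₂ → R₂ < p →
      (p : ℝ) ^ (3 / 2 + ε) ≤ ((R₁ - L₁ : ℕ) : ℝ) * ((R₂ - L₂ : ℕ) : ℝ) →
      ∃ n x : ℕ, L₁ < n ∧ n ≤ R₁ ∧ L₂ < x ∧ x ≤ R₂ ∧ γ ^ n = (x : ZMod p) ∧
        ∀ q : ℕ, q.Prime → (g : ℝ) < |(q : ℝ) - n| ∧ (g : ℝ) < |(q : ℝ) - x| :=
  Pool.Agent.X164.MP.dlog_first ε hε

end Pool.Agent.Results.MP_926cc3_nt.DiscreteLogarithms
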