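import Pool.Agent.X67.GP.Prog

set_option autoImplicit false

namespace Pool.Agent.Results.MP_926cc3_nt.GeometricProgressions

open Finset Polynomial
open Pool.Agent.X67.GP

/-- **Early long runs of composite numbers at points of geometric progressions, of cosets of
subgroups, and of all sets with many multiplicative almost periods.** Let `r ≥ 1`, `k` and `ε > 0`.
There are `C` and `G` such that, for all `g ≥ G` and all primes
`p ≥ exp (C g (log₂ g)² / ((log g)² log₃ g))` (the best bound known for the first occurrence of a run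
of `g` composite numbers, starting library), the following holds; residues modulo `p` are taken in
`{0, …, p - 1}`.

(1) Let `F₁, …, F_r` be polynomials of degree at most `k` over the field with `p` elements, such
that no nontrivial linear combination of them is constant. Let `S` and `B` be sets of residues with
`|B| ≤ |S|` and `|S| |B| ≥ p ^ (1 + ε)`, such that every `b` in `B` is nonzero and all but
`p ^ (-ε) |S|` elements of `S` lie in `b S`. Then there is an `x` in `S` such that no prime is within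
distance `g` of any of the `r` residues `F₁(x), …, F_r(x)`.

(2) The same holds for `S = {c, c θ, …, c θ ^ (M - 1)}`, `c ≠ 0`, when `p ^ (1/2 + ε) ≤ M` and `M`
is at most the order of `θ` modulo `p`.

(3) If the order `T` of `θ` is at least `p ^ (3/8 + ε)` then, for all `a` and all `c ≠ 0`, there is
an `l < T` such that no prime is within distance `g` of the residue `a + c θ ^ l`. -/
theorem result (r k : ℕ) (hr : 1 ≤ r) (ε : ℝ) (hε : 0 < ε) : ∃ C : ℝ, 0 < C ∧ ∃ G : ℕ,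
    ∀ g : ℕ, G ≤ g → ∀ (p : ℕ) [Fact p.Prime],
    Real.exp (C * g * (Real.log (Real.log g)) ^ 2 /
        ((Real.log g) ^ 2 * Real.log (Real.log (Real.log g)))) ≤ p →
    (∀ (S B : Finset (ZMod p)) (F : Fin r → (ZMod p)[X]),
      (∀ j, (F j).natDegree ≤ k) →
      (∀ h : Fin r → ZMod p, h ≠ 0 → 1 ≤ (∑ j, Polynomial.C (h j) * F j).natDegree) →
      B.card ≤ S.card → (p : ℝ) ^ (1 + ε) ≤ S.card * B.card →
      (∀ b ∈ B, b ≠ 0 ∧
        ((S \ S.image (fun x => b * x)).card : ℝ) ≤ (p : ℝ) ^ (-ε) * S.card) →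
      ∃ x ∈ S, ∀ j, ∀ q : ℕ, q.Prime → (g : ℝ) < |(q : ℝ) - (((F j).eval x).val : ℝ)|) ∧
    (∀ (θ c : ZMod p) (M : ℕ) (F : Fin r → (ZMod p)[X]),
      (∀ j, (F j).natDegree ≤ k) →
      (∀ h : Fin r → ZMod p, h ≠ 0 → 1 ≤ (∑ j, Polynomial.C (h j) * F j).natDegree) →
      θ ≠ 0 → c ≠ 0 → M ≤ orderOf θ → (p : ℝ) ^ (1 / 2 + ε) ≤ M →
      ∃ l : ℕ, l < M ∧ ∀ j, ∀ q : ℕ, q.Prime →
        (g : ℝ) < |(q : ℝ) - (((F j).eval (c * θ ^ l)).val : ℝ)|) ∧
    (∀ θ c a : ZMod p, θ ≠ 0 → c ≠ 0 → (p : ℝ) ^ (3 / 8 + ε) ≤ orderOf θ →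
      ∃ l : ℕ, l < orderOf θ ∧ ∀ q : ℕ, q.Prime →
        (g : ℝ) < |(q : ℝ) - ((a + c * θ ^ l).val : ℝ)|) := by
  obtain ⟨κ₁, hκ₁, p₁, h₁⟩ := almost_inv_gaps r k hr ε hε
  obtain ⟨κ₂, hκ₂, p₂, h₂⟩ := gp_gaps r k hr ε hε
  obtain ⟨κ₃, hκ₃, p₃, h₃⟩ := sub_gaps ε hε
  obtain ⟨C₁, hC₁, G₁, hG₁⟩ := Pool.Agent.X164.MP.first_scale κ₁ hκ₁ p₁
  obtain ⟨C₂, hC₂, G₂, hG₂⟩ := Pool.Agent.X164.MP.first_scale κ₂ hκ₂ p₂
  obtain ⟨C₃, hC₃, G₃, hG₃⟩ := Pool.Agent.X164.MP.first_scale κ₃ hκ₃ p₃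
  refine ⟨max C₁ (max C₂ C₃), lt_of_lt_of_le hC₁ (le_max_left _ _),
    max (max G₁ (max G₂ G₃)) 4000000, ?_⟩
  intro g hg p _ hp
  have hg1 : G₁ ≤ g := ((le_max_left _ _).trans (le_max_left _ _)).trans hg
  have hg2 : G₂ ≤ g := ((le_max_left _ _).trans ((le_max_right _ _).trans (le_max_left _ _))).trans hg
  have hg3 : G₃ ≤ g := ((le_max_right _ _).trans ((le_max_right _ _).trans (le_max_left _ _))).trans hg
  have hg4 : (4000000 : ℝ) ≤ g := by exact_mod_cast (le_max_right _ _).trans hg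
  have hg0 : (0 : ℝ) < g := by linarith
  -- `log log log g ≥ 0`
  have hl1 : Real.exp 1 ≤ Real.log g := by
    rw [Real.le_log_iff_exp_le hg0]
    have e1 : Real.exp 1 < 2.7182818286 := Real.exp_one_lt_d9
    have e2 : Real.exp (Real.exp 1) ≤ Real.exp 3 := Real.exp_le_exp.2 (by linarith)
    have e3 : Real.exp 3 = Real.exp 1 ^ 3 := by
      rw [← Real.exp_nat_mul]
      norm_num
    have e4 : Real.exp 1 ^ 3 ≤ 3 ^ 3 := by
      have : (0 : ℝ) < Real.exp 1 := Real.exp_pos _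
      gcongr
      linarith
    rw [e3] at e2
    linarith [e2.trans e4]
  have hl0 : 0 < Real.log g := lt_of_lt_of_le (Real.exp_pos _) hl1
  have hll1 : 1 ≤ Real.log (Real.log g) := by
    rw [Real.le_log_iff_exp_le hl0]
    exact hl1
  have hlll : 0 ≤ Real.log (Real.log (Real.log g)) := Real.log_nonneg hll1
  have key : ∀ C' : ℝ, C' ≤ max C₁ (max C₂ C₃) →
      Real.exp (C' * g * (Real.log (Real.log g)) ^ 2 /
        ((Real.log g) ^ 2 * Real.log (Real.log (Real.log g)))) ≤ p := by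
    intro C' hC'
    refine le_trans (Real.exp_le_exp.2 ?_) hp
    gcongr
  refine ⟨?_, ?_, ?_⟩
  · intro S B F hF hlin hle hSB hB
    obtain ⟨c1, c2⟩ := hG₁ g hg1 p (key C₁ (le_max_left _ _))
    obtain ⟨x, hx, hx2⟩ := h₁ p (by exact_mod_cast c1) S B F hF hlin hSB hle hB
    exact ⟨x, hx, fun j q hq => lt_of_le_of_lt c2 (hx2 j q hq)⟩
  · intro θ c M F hF hlin hθ hc hM hMp
    obtain ⟨c1, c2⟩ := hG₂ g hg2 p (key C₂ ((le_max_left _ _).trans (le_max_right _ _)))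
    obtain ⟨l, hl, hl2⟩ := h₂ p (by exact_mod_cast c1) θ c M F hθ hc hM hMp hF hlin
    exact ⟨l, hl, fun j q hq => lt_of_le_of_lt c2 (hl2 j q hq)⟩
  · intro θ c a hθ hc hT
    obtain ⟨c1, c2⟩ := hG₃ g hg3 p (key C₃ ((le_max_right _ _).trans (le_max_right _ _)))
    obtain ⟨l, hl, hl2⟩ := h₃ p (by exact_mod_cast c1) θ c a hθ hc hT
    exact ⟨l, hl, fun q hq => lt_of_le_of_lt c2 (hl2 q hq)⟩

end Pool.Agent.Results.MP_926cc3_nt.GeometricProgressions
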