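import Mathlib
import Pool.Agent.Y837.SV.First
import Pool.Agent.X145.S3.Final

set_option autoImplicit false

/-!
# Early long runs of composite numbers around arbitrary families of polynomial values

Shanks: the first run of `g` composite numbers should occur at `exp (√g)`.  The best bound known for the first
occurrence is `exp T` with `T = C g (log log g)² / ((log g)² log log log g)` (starting library).

We prove that for EVERY finite family of admissible integer polynomials in `n` variables there is, in every box with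
sides `exp T`, an integer point `x` around all of whose values `F_1(x), …, F_m(x)` there are runs of composites of
length `2 g + 1`.  Up to invertible polynomial changes of variables and constants, admissible are: `P + Q` with
`P ≠ 0` of weight `D ≠ 0` and `Q` of weight `0` for some integer weights of any sign, if `|D| = 1` or `Q` is not
constant or `P` is squarefree (for instance `B y ^ a + G`, forms without repeated factors, determinants, products of
linear polynomials in different variables); `F₀ + F₁ + F₂` with `F_i` of weight `i` which are not squares up to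
constants (for instance all polynomials of degree at most two, in total or in one of the variables); sums of three
nonconstant polynomials in disjoint sets of variables.  The polynomials of one family may be of different types, and no
condition whatsoever is imposed on their mutual position.
-/

namespace Pool.Agent.Results.MP_926cc3_nt.PolynomialFamilies

open MvPolynomial

/-- `T C g = C g (log log g)² / ((log g)² log log log g)`. -/
noncomputable def T (C g : ℝ) : ℝ :=
  C * g * (Real.log (Real.log g)) ^ 2 / ((Real.log g) ^ 2 * Real.log (Real.log (Real.log g)))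

variable {n : ℕ}

/-- `F` is homogeneous of weight `D` if the variable `x_i` has weight `w i`. -/
def Weight (w : Fin n → ℤ) (D : ℤ) (F : MvPolynomial (Fin n) ℤ) : Prop :=
  ∀ e ∈ F.support, ∑ i, w i * (e i : ℤ) = D

/-- `F = P + Q`, where for some integer weights `P ≠ 0` has weight `D ≠ 0` and `Q` has weight `0`, and moreover
`|D| = 1` or `Q` is not constant or `P` is squarefree over `ℚ`. -/
def TwoWeights (F : MvPolynomial (Fin n) ℤ) : Prop :=
  ∃ (w : Fin n → ℤ) (D : ℤ) (P Q : MvPolynomial (Fin n) ℤ), D ≠ 0 ∧ P ≠ 0 ∧ Weight w D P ∧ Weight w 0 Q ∧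
    (|D| = 1 ∨ (∀ c, Q ≠ C c) ∨ Squarefree (map (Int.castRingHom ℚ) P)) ∧ F = P + Q

/-- `F = F₀ + F₁ + F₂`, where for some integer weights `F_i` has weight `i`, not both `F₁`, `F₂` are `0`, and
`K F + K'` is not a square for any integers `K ≠ 0`, `K'`. -/
def ThreeWeights (F : MvPolynomial (Fin n) ℤ) : Prop :=
  ∃ (w : Fin n → ℤ) (F₀ F₁ F₂ : MvPolynomial (Fin n) ℤ), Weight w 0 F₀ ∧ Weight w 1 F₁ ∧ Weight w 2 F₂ ∧
    (F₁ ≠ 0 ∨ F₂ ≠ 0) ∧ F = F₀ + F₁ + F₂ ∧
    ∀ K K' : ℤ, ∀ l : MvPolynomial (Fin n) ℤ, K ≠ 0 → C K * F + C K' ≠ l ^ 2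

/-- `F` is the sum of three nonconstant polynomials in disjoint sets of variables. -/
def ThreeSum (F : MvPolynomial (Fin n) ℤ) : Prop :=
  ∃ (b : Fin n → Fin 3) (g : Fin 3 → MvPolynomial (Fin n) ℤ), (∀ i, ∀ v ∈ (g i).vars, b v = i) ∧
    (∀ i c, g i ≠ C c) ∧ F = g 0 + g 1 + g 2

/-- `K F + K' = G(φ_1, …, φ_n)` for some integers `K ≠ 0`, `K'`, some `G` of one of the three types, and polynomials
`φ_1, …, φ_n` which generate the algebra `ℚ[x_1, …, x_n]` (an invertible polynomial change of variables over `ℚ`). -/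
def Admissible (F : MvPolynomial (Fin n) ℤ) : Prop :=
  ∃ (K K' : ℤ) (φ : Fin n → MvPolynomial (Fin n) ℤ) (G : MvPolynomial (Fin n) ℤ), K ≠ 0 ∧
    Algebra.adjoin ℚ (Set.range fun i => map (Int.castRingHom ℚ) (φ i)) = ⊤ ∧
    (TwoWeights G ∨ ThreeWeights G ∨ ThreeSum G) ∧ C K * F + C K' = aeval φ G

/-- **Early long runs of composite numbers around all the values of a family of admissible polynomials.** -/
theorem result {m : ℕ} (F : Fin m → MvPolynomial (Fin n) ℤ) (hF : ∀ j, Admissible (F j)) :
    ∃ C : ℝ, 0 < C ∧ ∃ G : ℕ, ∀ g : ℕ, G ≤ g → ∀ M : Fin n → ℤ, ∃ x : Fin n → ℤ,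
      (∀ i, (M i : ℝ) < x i ∧ (x i : ℝ) ≤ M i + Real.exp (T C g)) ∧
        ∀ j, ∀ N : ℤ, |N - eval x (F j)| ≤ g →
          ∃ p : ℕ, p.Prime ∧ (p : ℝ) ≤ Real.exp (T C g / 10) ∧ (p : ℤ) ∣ N := by
  have hgood : ∀ j, Pool.Agent.X145.S3.Good (F j) := by
    intro j
    obtain ⟨K, K', φ, G, hK, hφ, hG, h⟩ := hF j
    refine Pool.Agent.X145.S3.good_change (F j) G φ hφ K K' hK ?_ h
    rcases hG with ⟨w, D, P, Q, hD, hP0, hP, hQ, hc, rfl⟩ | ⟨w, F₀, F₁, F₂, h0, h1, h2, h3, rfl, hsq⟩ |
      ⟨b, g, hb, hg, rfl⟩
    · exact Pool.Agent.X145.S3.good_tw w D P Q hD hP0 hP hQ hc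
    · exact Pool.Agent.X145.S3.good_thw w F₀ F₁ F₂ h0 h1 h2 h3 hsq
    · exact Pool.Agent.X145.S3.good_three b g hb hg
  exact Pool.Agent.Y837.SV.first_of_record (fun j x => eval x (F j))
    (Pool.Agent.X145.S3.family n F hgood fun j c => (hgood j).nonconst c)

end Pool.Agent.Results.MP_926cc3_nt.PolynomialFamilies
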